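import Pool.Agent.Helper27.EQ.Num
import Pool.Agent.Helper84.LM.M_FS
import Pool.Agent.Helper29.LM.M_PH
import Pool.Agent.Helper4.LM.M_BBC
import Pool.Agent.Helper79.LM.M_PL

/-!
# Project EQ, module MIQ: the master inequality
-/

set_option autoImplicit false

open MeasureTheory Set Filter Topology
open scoped ENNReal RealInnerProductSpace

namespace Pool.Agent.Helper27.EQ

open Pool.Agent.Helper68.LM (Pl BB Bd Av HL ft fm DQ)
open Pool.Agent.Helper20.RG Pool.Agent.Helper20.EQ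
open Pool.Agent.Helper68.EP (elt GapP StGPG)

/-- Plancherel and Tonelli for all classes -/
theorem core2 (T : ℕ → ℤ → ℕ → Pl → ℝ) (μ : ℕ → ℤ → ℕ → Pl → ℂ) (w : ℕ → ℝ≥0∞) (g : Pl → ℝ)
    (B : ℝ≥0∞) (hg : BB g)
    (hT : ∀ u, 2 ≤ u → ∀ k, ∀ j < 2 ^ u, BB (T u k j) ∧ ∀ ξ : Pl, ft (T u k j) ξ = μ u k j ξ * ft g ξ)
    (hB : ∀ ξ : Pl, ξ ≠ 0 → ∑' u : ℕ, (if 2 ≤ u then w u *
      ∑' k : ℤ, ∑ j ∈ Finset.range (2 ^ u), ‖μ u k j ξ‖ₑ ^ 2 else 0) ≤ B) :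
    ∑' u : ℕ, (if 2 ≤ u then w u * ∑' k : ℤ, ∑ j ∈ Finset.range (2 ^ u), ∫⁻ x, ‖T u k j x‖ₑ ^ 2
      else 0) ≤ B * ∫⁻ x, ‖g x‖ₑ ^ 2 := by
  have hPL := Pool.Agent.Helper79.LM.hPL
  obtain ⟨hgm, hgP⟩ := hPL g hg
  have hm : ∀ u, 2 ≤ u → ∀ k : ℤ, Measurable (fun ξ => ∑ j ∈ Finset.range (2 ^ u),
      ‖ft (T u k j) ξ‖ₑ ^ 2) := by
    intro u hu k
    refine Finset.measurable_fun_sum _ fun j hj => ?_
    exact (hPL _ (hT u hu k j (Finset.mem_range.1 hj)).1).1.enorm.pow_const 2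
  have h1 : ∀ u : ℕ, (if 2 ≤ u then w u * ∑' k : ℤ, ∑ j ∈ Finset.range (2 ^ u),
      ∫⁻ x, ‖T u k j x‖ₑ ^ 2 else 0) = ∫⁻ ξ, (if 2 ≤ u then w u * ∑' k : ℤ,
        ∑ j ∈ Finset.range (2 ^ u), ‖ft (T u k j) ξ‖ₑ ^ 2 else 0) := by
    intro u
    by_cases hu : 2 ≤ u
    · simp only [if_pos hu]
      rw [lintegral_const_mul _ (Measurable.ennreal_tsum (hm u hu)),
        lintegral_tsum (fun k => (hm u hu k).aemeasurable)]
      congr 1
      refine tsum_congr fun k => ?_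
      rw [lintegral_finsetSum']
      · refine Finset.sum_congr rfl fun j hj => ?_
        rw [(hPL _ (hT u hu k j (Finset.mem_range.1 hj)).1).2]
      · intro j hj
        exact ((hPL _ (hT u hu k j (Finset.mem_range.1 hj)).1).1.enorm.pow_const 2).aemeasurable
    · simp only [if_neg hu, lintegral_zero]
  rw [tsum_congr h1, ← lintegral_tsum, ← hgP, ← lintegral_const_mul _ (hgm.enorm.pow_const 2)]
  · refine lintegral_mono_ae ?_
    have h0 : ∀ᵐ ξ : Pl, ξ ≠ 0 := by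
      rw [ae_iff]
      simp
    filter_upwards [h0] with ξ hξ
    calc ∑' u : ℕ, (if 2 ≤ u then w u * ∑' k : ℤ, ∑ j ∈ Finset.range (2 ^ u),
          ‖ft (T u k j) ξ‖ₑ ^ 2 else 0)
        = ∑' u : ℕ, (if 2 ≤ u then w u *
          ∑' k : ℤ, ∑ j ∈ Finset.range (2 ^ u), ‖μ u k j ξ‖ₑ ^ 2 else 0) * ‖ft g ξ‖ₑ ^ 2 := by
          refine tsum_congr fun u => ?_
          by_cases hu : 2 ≤ u
          · rw [if_pos hu, if_pos hu, mul_assoc, ← ENNReal.tsum_mul_right]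
            congr 1
            refine tsum_congr fun k => ?_
            rw [Finset.sum_mul]
            refine Finset.sum_congr rfl fun j hj => ?_
            rw [(hT u hu k j (Finset.mem_range.1 hj)).2, enorm_mul, mul_pow]
          · rw [if_neg hu, if_neg hu, zero_mul]
      _ = (∑' u : ℕ, (if 2 ≤ u then w u *
          ∑' k : ℤ, ∑ j ∈ Finset.range (2 ^ u), ‖μ u k j ξ‖ₑ ^ 2 else 0)) * ‖ft g ξ‖ₑ ^ 2 :=
          ENNReal.tsum_mul_right
      _ ≤ B * ‖ft g ξ‖ₑ ^ 2 := by gcongr; exact hB ξ hξ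
  · intro u
    by_cases hu : 2 ≤ u
    · simp only [if_pos hu]
      exact ((Measurable.ennreal_tsum (hm u hu)).const_mul _).aemeasurable
    · simp only [if_neg hu]
      exact aemeasurable_const

theorem Pso_nonneg (s : ℝ) (m m' : ℕ) (ξ : Pl) : 0 ≤ Pso s m m' ξ := by
  unfold Pso
  have h1 : 0 ≤ min 1 (‖ξ‖ * (2 : ℝ) ^ (-(m' : ℤ))) := le_min zero_le_one (by positivity)
  have h2 : 0 ≤ min 1 ((2 : ℝ) ^ m / ‖ξ‖) := le_min zero_le_one (by positivity)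
  positivity

theorem Pso_le_one (s : ℝ) (m m' : ℕ) (ξ : Pl) : Pso s m m' ξ ≤ 1 := by
  unfold Pso
  have h1 : 0 ≤ min 1 (‖ξ‖ * (2 : ℝ) ^ (-(m' : ℤ))) := le_min zero_le_one (by positivity)
  have h2 : 0 ≤ min 1 ((2 : ℝ) ^ m / ‖ξ‖) := le_min zero_le_one (by positivity)
  have h3 : 1 / (1 + |⟪E s, ξ⟫|) ≤ 1 := by
    rw [div_le_one (by positivity)]
    have := abs_nonneg ⟪E s, ξ⟫
    linarith
  have h4 : 0 ≤ 1 / (1 + |⟪E s, ξ⟫|) := by positivity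
  have h5 : min 1 (‖ξ‖ * (2 : ℝ) ^ (-(m' : ℤ))) * min 1 ((2 : ℝ) ^ m / ‖ξ‖) ≤ 1 :=
    mul_le_one₀ (min_le_left _ _) h2 (min_le_left _ _)
  exact mul_le_one₀ h5 h4 h3

theorem hMIQ (hYB : StYB) (hKD : StKD) (hMIM : StMIM) (hSS : StSS) (hCN : StCN) (hSYS : StSYS)
    (hGPG : StGPG) : StMIQ := by
  intro φ τ A p c hG hA hGap hp
  obtain ⟨C₀, hC₀, hK, -⟩ := hKD
  obtain ⟨C₁, hC₁, hM⟩ := hMIM φ τ A p hG hA hGap hp
  obtain ⟨C₂, hC₂, h2⟩ := ser p (by linarith)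
  obtain ⟨C₃, hC₃, h3⟩ := hSS p hp
  have hGap' := hGPG τ A p hA (by linarith) hGap
  have hA' : 0 < A ^ (1 / p) := Real.rpow_pos_of_pos hA _
  have hFS := Pool.Agent.Helper84.LM.hFS Pool.Agent.Helper29.LM.hPH
  have hBBC := Pool.Agent.Helper4.LM.hBBC Pool.Agent.Helper29.LM.hPH
  refine ⟨C₀ ^ 2 * C₁ * (C₂ + C₃ * A), by positivity, ?_⟩
  intro g hg
  have hsys : ∀ u, 2 ≤ u → ∀ j < 2 ^ u, |sl τ u j| ≤ 1 ∧ mp τ u j ≤ mm τ u j := by
    intro u hu j hj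
    have h := (hSYS φ τ (A ^ (1 / p)) p c hG hGap' hA' (by linarith) u (by omega)).2 hu
    exact ⟨h.slope j hj, (h.mm j hj).1⟩
  refine core2 (fun u k j => Zc c φ τ u 0 k j g)
    (fun u k j ξ => Zh (sl τ u j) (ce c φ u j) (mm τ u j) (mp τ u j) ((2 : ℝ) ^ 0) ((2 : ℝ) ^ k • ξ))
    (fun u => ENNReal.ofReal ((2 : ℝ) ^ (-(p * u)))) g _ hg ?_ ?_
  · intro u hu k j hj
    obtain ⟨hs, -⟩ := hsys u hu j hj
    obtain ⟨a1, a2, -⟩ := hYB (sl τ u j) (ce c φ u j) (mm τ u j) ((2 : ℝ) ^ 0) k g hs (by norm_num) hg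
    obtain ⟨b1, b2, -⟩ := hYB (sl τ u j) (ce c φ u j) (mp τ u j) ((2 : ℝ) ^ 0) k g hs (by norm_num) hg
    refine ⟨hBBC.1 _ _ a1 b1, fun ξ => ?_⟩
    have h4 := hFS.2.2.2 _ _ a1 b1 ξ
    show ft (fun x => Y (sl τ u j) (ce c φ u j) (mm τ u j) ((2 : ℝ) ^ 0) k g x -
      Y (sl τ u j) (ce c φ u j) (mp τ u j) ((2 : ℝ) ^ 0) k g x) ξ = _
    rw [h4, a2, b2]
    unfold Zh
    ring
  · intro ξ hξ
    set θ := th ξ with hθ
    set P : ℕ → ℕ → Prop := fun u i => 1 ≤ (2 : ℝ) ^ u * elt τ θ i with hP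
    have hL : ∀ i, 0 ≤ elt τ θ i ∧ elt τ θ i ≤ 1 :=
      fun i => ⟨(hCN φ τ hG 0 i θ).2.2.1, (hCN φ τ hG 0 i θ).2.2.2.1⟩
    have t3 := (h3 (fun i => elt τ θ i) A 1 hL (fun n => hGap θ n) (by norm_num)).1
    rw [Real.one_rpow, mul_one] at t3
    have hk0 : ∀ k : ℤ, ((2 : ℝ) ^ k • ξ : Pl) ≠ 0 := by
      intro k
      exact smul_ne_zero (by positivity) hξ
    have hpt : ∀ u, 2 ≤ u → ∑' k : ℤ, ∑ j ∈ Finset.range (2 ^ u),
        ‖Zh (sl τ u j) (ce c φ u j) (mm τ u j) (mp τ u j) ((2 : ℝ) ^ 0) ((2 : ℝ) ^ k • ξ)‖ₑ ^ 2 ≤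
        ENNReal.ofReal (C₀ ^ 2 * (C₁ * (u + 1 + ({i : ℕ | 1 ≤ i ∧ P u i}.ncard : ℝ)))) := by
      intro u hu
      calc ∑' k : ℤ, ∑ j ∈ Finset.range (2 ^ u),
          ‖Zh (sl τ u j) (ce c φ u j) (mm τ u j) (mp τ u j) ((2 : ℝ) ^ 0) ((2 : ℝ) ^ k • ξ)‖ₑ ^ 2
          ≤ ∑' k : ℤ, ∑ j ∈ Finset.range (2 ^ u), ENNReal.ofReal (C₀ ^ 2) *
            ENNReal.ofReal (Pso (sl τ u j) (mm τ u j) (mp τ u j) ((2 : ℝ) ^ k • ξ)) := by
            apply ENNReal.tsum_le_tsum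
            intro k
            apply Finset.sum_le_sum
            intro j hj
            have hj' := Finset.mem_range.1 hj
            have h5 := hK (sl τ u j) (ce c φ u j) (mm τ u j) (mp τ u j) ((2 : ℝ) ^ 0)
              ((2 : ℝ) ^ k • ξ) (hsys u hu j hj').2 (by norm_num) (hk0 k)
            have h6 := Pso_nonneg (sl τ u j) (mm τ u j) (mp τ u j) ((2 : ℝ) ^ k • ξ)
            have h7 := Pso_le_one (sl τ u j) (mm τ u j) (mp τ u j) ((2 : ℝ) ^ k • ξ)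
            rw [← ofReal_norm, ← ENNReal.ofReal_pow (norm_nonneg _),
              ← ENNReal.ofReal_mul (by positivity)]
            apply ENNReal.ofReal_le_ofReal
            have h8 := pow_le_pow_left₀ (norm_nonneg _) h5 2
            refine h8.trans ?_
            rw [mul_pow]
            have h9 : Pso (sl τ u j) (mm τ u j) (mp τ u j) ((2 : ℝ) ^ k • ξ) ^ 2 ≤
                Pso (sl τ u j) (mm τ u j) (mp τ u j) ((2 : ℝ) ^ k • ξ) := by
              rw [sq]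
              nlinarith
            exact mul_le_mul_of_nonneg_left h9 (by positivity)
        _ = ENNReal.ofReal (C₀ ^ 2) * ∑' k : ℤ, ∑ j ∈ Finset.range (2 ^ u),
            ENNReal.ofReal (Pso (sl τ u j) (mm τ u j) (mp τ u j) ((2 : ℝ) ^ k • ξ)) := by
            rw [← ENNReal.tsum_mul_left]
            refine tsum_congr fun k => ?_
            rw [Finset.mul_sum]
        _ ≤ ENNReal.ofReal (C₀ ^ 2) *
            ENNReal.ofReal (C₁ * (u + 1 + ({i : ℕ | 1 ≤ i ∧ P u i}.ncard : ℝ))) := by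
            gcongr
            exact hM u hu ξ hξ
        _ = _ := (ENNReal.ofReal_mul (by positivity)).symm
    classical
    calc ∑' u : ℕ, (if 2 ≤ u then ENNReal.ofReal ((2 : ℝ) ^ (-(p * u))) *
          ∑' k : ℤ, ∑ j ∈ Finset.range (2 ^ u),
          ‖Zh (sl τ u j) (ce c φ u j) (mm τ u j) (mp τ u j) ((2 : ℝ) ^ 0) ((2 : ℝ) ^ k • ξ)‖ₑ ^ 2
          else 0)
        ≤ ∑' u : ℕ, ENNReal.ofReal (C₀ ^ 2 * C₁) * (ENNReal.ofReal ((2 : ℝ) ^ (-(p * u)) * (u + 3)) +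
          ∑' i : ℕ, ENNReal.ofReal (if P u (i + 1) then (2 : ℝ) ^ (-(p * u)) else 0)) := by
          apply ENNReal.tsum_le_tsum
          intro u
          by_cases hu : 2 ≤ u
          · rw [if_pos hu]
            have hx : (0 : ℝ) < (2 : ℝ) ^ (-(p * u)) := Real.rpow_pos_of_pos (by norm_num) _
            calc ENNReal.ofReal ((2 : ℝ) ^ (-(p * u))) * ∑' k : ℤ, ∑ j ∈ Finset.range (2 ^ u),
                ‖Zh (sl τ u j) (ce c φ u j) (mm τ u j) (mp τ u j) ((2 : ℝ) ^ 0)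
                  ((2 : ℝ) ^ k • ξ)‖ₑ ^ 2
                ≤ ENNReal.ofReal ((2 : ℝ) ^ (-(p * u))) *
                  ENNReal.ofReal (C₀ ^ 2 * (C₁ * (u + 1 + ({i : ℕ | 1 ≤ i ∧ P u i}.ncard : ℝ)))) := by
                  gcongr
                  exact hpt u hu
              _ = ENNReal.ofReal (C₀ ^ 2 * C₁ * ((2 : ℝ) ^ (-(p * u)) * (u + 1) +
                  (2 : ℝ) ^ (-(p * u)) * ({i : ℕ | 1 ≤ i ∧ P u i}.ncard : ℝ))) := by
                  rw [← ENNReal.ofReal_mul hx.le]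
                  congr 1
                  ring
              _ = ENNReal.ofReal (C₀ ^ 2 * C₁) * (ENNReal.ofReal ((2 : ℝ) ^ (-(p * u)) * (u + 1)) +
                  ENNReal.ofReal ((2 : ℝ) ^ (-(p * u)) * ({i : ℕ | 1 ≤ i ∧ P u i}.ncard : ℝ))) := by
                  rw [ENNReal.ofReal_mul (by positivity),
                    ENNReal.ofReal_add (by positivity) (by positivity)]
              _ ≤ _ := by
                  gcongr
                  · norm_num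
                  · exact ncard_le (P u) _ hx.le
          · rw [if_neg hu]
            exact zero_le
      _ = ENNReal.ofReal (C₀ ^ 2 * C₁) *
          (∑' u : ℕ, ENNReal.ofReal ((2 : ℝ) ^ (-(p * u)) * (u + 3)) +
          ∑' (u : ℕ) (i : ℕ), ENNReal.ofReal (if P u (i + 1) then (2 : ℝ) ^ (-(p * u)) else 0)) := by
          rw [ENNReal.tsum_mul_left, ENNReal.tsum_add]
      _ ≤ ENNReal.ofReal (C₀ ^ 2 * C₁) * (ENNReal.ofReal C₂ + ENNReal.ofReal (C₃ * A)) := by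
          gcongr
      _ = ENNReal.ofReal (C₀ ^ 2 * C₁ * (C₂ + C₃ * A)) := by
          rw [← ENNReal.ofReal_add (by positivity) (by positivity),
            ← ENNReal.ofReal_mul (by positivity)]

end Pool.Agent.Helper27.EQ
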