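import Pool.Agent.Helper27.EQ.Num

/-!
# Project EQ, module WRN: numbers
-/

set_option autoImplicit false

open MeasureTheory Set Filter Topology
open scoped ENNReal

namespace Pool.Agent.Helper27.EQ

open Pool.Agent.Helper20.RG Pool.Agent.Helper20.EQ
open Pool.Agent.Helper68.EP (elt GapP)

theorem hWRN (hCN : StCN) (hWT : StWT) (hSS : StSS) : StWRN := by
  intro φ τ A p hG hA hGap hp
  obtain ⟨C₁, hC₁, h1⟩ := ser (p - 1) (by linarith)
  obtain ⟨C₂, hC₂, h2⟩ := ser p (by linarith)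
  obtain ⟨C₃, hC₃, h3⟩ := hSS p hp
  refine ⟨C₁ + C₂ + 2 * (C₃ * A * (2 : ℝ) ^ (p - 1)), by positivity, ?_⟩
  intro s Y θ hs hY hYs
  have hY0 : 0 < Y := by linarith
  set W : ℕ → ℕ := fun u => Wt τ u Y θ with hW
  -- the pointwise bound
  have hpt : ∀ u : ℕ, s ≤ u → ENNReal.ofReal ((2 : ℝ) ^ (-(p * u)) * ((2 : ℝ) ^ u + (u + 2) * Y +
      ∑ i ∈ Finset.Icc 1 (Wt τ u Y θ + 1), (nn τ u θ i : ℝ))) ≤
      ENNReal.ofReal ((2 : ℝ) ^ ((1 - p) * u)) + ENNReal.ofReal ((2 : ℝ) ^ (-(p * u)) * (u + 3) * Y) +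
      2 * ∑' i : ℕ, ENNReal.ofReal (if Y / 2 ≤ (2 : ℝ) ^ u * elt τ θ (i + 1) then
        (2 : ℝ) ^ ((1 - p) * u) * elt τ θ (i + 1) else 0) := by
    intro u hu
    have hu1 : 1 ≤ u := hs.trans hu
    obtain ⟨w1, w2, w3, w4, w5, w6⟩ := hWT φ τ A p hG hA hGap hp u Y θ hu1 hY
    set w := Wt τ u Y θ with hw
    have htop : (nn τ u θ (w + 1) : ℝ) ≤ Y := by
      by_contra hcon
      push Not at hcon
      have := w1 (w + 1) hcon.le
      omega
    have hx : (0 : ℝ) < (2 : ℝ) ^ (-(p * u)) := Real.rpow_pos_of_pos (by norm_num) _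
    have hel : ∀ i, 0 ≤ elt τ θ i := fun i => (hCN φ τ hG u i θ).2.2.1
    have hsum : ∑ i ∈ Finset.Icc 1 (w + 1), (nn τ u θ i : ℝ) ≤
        2 * (2 : ℝ) ^ u * ∑ i ∈ Finset.Icc 1 w, elt τ θ i + Y := by
      rw [Finset.sum_Icc_succ_top (by omega)]
      apply add_le_add _ htop
      rw [Finset.mul_sum]
      apply Finset.sum_le_sum
      intro i hi
      rw [Finset.mem_Icc] at hi
      have h4 := w4 i hi.1 hi.2
      have h5 := (hCN φ τ hG u i θ).1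
      nlinarith
    have e1 : (2 : ℝ) ^ (-(p * u)) * (2 : ℝ) ^ u = (2 : ℝ) ^ ((1 - p) * u) := by
      rw [← Real.rpow_natCast, ← Real.rpow_add (by norm_num)]
      congr 1
      ring
    have hbound : (2 : ℝ) ^ (-(p * u)) * ((2 : ℝ) ^ u + (u + 2) * Y +
        ∑ i ∈ Finset.Icc 1 (w + 1), (nn τ u θ i : ℝ)) ≤
        (2 : ℝ) ^ ((1 - p) * u) + (2 : ℝ) ^ (-(p * u)) * (u + 3) * Y +
        2 * ∑ i ∈ Finset.Icc 1 w, (2 : ℝ) ^ ((1 - p) * u) * elt τ θ i := by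
      rw [← Finset.mul_sum, ← e1]
      calc (2 : ℝ) ^ (-(p * u)) * ((2 : ℝ) ^ u + (u + 2) * Y +
          ∑ i ∈ Finset.Icc 1 (w + 1), (nn τ u θ i : ℝ))
          ≤ (2 : ℝ) ^ (-(p * u)) * ((2 : ℝ) ^ u + (u + 2) * Y +
            (2 * (2 : ℝ) ^ u * ∑ i ∈ Finset.Icc 1 w, elt τ θ i + Y)) := by
            apply mul_le_mul_of_nonneg_left _ hx.le
            linarith
        _ = _ := by ring
    have hX1 : (0 : ℝ) ≤ (2 : ℝ) ^ ((1 - p) * u) := by positivity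
    refine (ENNReal.ofReal_le_ofReal hbound).trans ?_
    have hS0 : 0 ≤ ∑ i ∈ Finset.Icc 1 w, (2 : ℝ) ^ ((1 - p) * u) * elt τ θ i :=
      Finset.sum_nonneg (fun i _ => mul_nonneg hX1 (hel i))
    rw [ENNReal.ofReal_add (by positivity) (by positivity),
      ENNReal.ofReal_add (by positivity) (by positivity), ENNReal.ofReal_mul (by norm_num : (0 : ℝ) ≤ 2)]
    have e2 : ENNReal.ofReal 2 = 2 := by norm_num
    rw [e2]
    gcongr
    rw [ENNReal.ofReal_sum_of_nonneg (fun i _ => mul_nonneg hX1 (hel i))]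
    have e3 : Finset.Icc 1 w = Finset.Ico 1 (w + 1) := by
      ext x
      simp only [Finset.mem_Icc, Finset.mem_Ico]
      omega
    rw [e3, Finset.sum_Ico_eq_sum_range]
    calc ∑ k ∈ Finset.range (w + 1 - 1), ENNReal.ofReal ((2 : ℝ) ^ ((1 - p) * u) * elt τ θ (1 + k))
        = ∑ i ∈ Finset.range w, ENNReal.ofReal (if Y / 2 ≤ (2 : ℝ) ^ u * elt τ θ (i + 1) then
        (2 : ℝ) ^ ((1 - p) * u) * elt τ θ (i + 1) else 0) := by
          rw [Nat.add_sub_cancel]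
          apply Finset.sum_congr rfl
          intro i hi
          rw [Finset.mem_range] at hi
          rw [if_pos (w4 (i + 1) (by omega) (by omega)), add_comm 1 i]
      _ ≤ _ := ENNReal.sum_le_tsum _
  have hq : ∀ t : ℝ, (2 : ℝ) ^ (-(p * (t + s))) = (2 : ℝ) ^ (-(p * s)) * (2 : ℝ) ^ (-(p * t)) := by
    intro t
    rw [← Real.rpow_add (by norm_num)]
    congr 1
    ring
  have hYp : (2 : ℝ) ^ ((1 - p) * s) ≤ Y ^ (1 - p) := by
    have e1 : (2 : ℝ) ^ ((1 - p) * s) = ((2 : ℝ) ^ s) ^ (1 - p) := by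
      rw [← Real.rpow_natCast, ← Real.rpow_mul (by norm_num)]
      congr 1
      ring
    rw [e1]
    exact Real.rpow_le_rpow_of_nonpos hY0 hYs (by linarith)
  have hYq : (2 : ℝ) ^ (-(p * s)) * Y ≤ Y ^ (1 - p) := by
    have e1 : (2 : ℝ) ^ (-(p * s)) = ((2 : ℝ) ^ s) ^ (-p) := by
      rw [← Real.rpow_natCast, ← Real.rpow_mul (by norm_num)]
      congr 1
      ring
    rw [e1]
    have h5 := Real.rpow_le_rpow_of_nonpos hY0 hYs (by linarith : -p ≤ 0)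
    calc ((2 : ℝ) ^ s) ^ (-p) * Y ≤ Y ^ (-p) * Y := mul_le_mul_of_nonneg_right h5 hY0.le
      _ = Y ^ (1 - p) := by
          nth_rewrite 2 [← Real.rpow_one Y]
          rw [← Real.rpow_add hY0]
          congr 1
          ring
  have hYZ : 0 < Y ^ (1 - p) := Real.rpow_pos_of_pos hY0 _
  -- first sum
  have t1 : ∑' u : ℕ, (if s ≤ u then ENNReal.ofReal ((2 : ℝ) ^ ((1 - p) * u)) else 0) ≤
      ENNReal.ofReal (C₁ * Y ^ (1 - p)) := by
    rw [shift s (fun u : ℕ => ENNReal.ofReal ((2 : ℝ) ^ ((1 - p) * u)))]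
    calc ∑' t : ℕ, ENNReal.ofReal ((2 : ℝ) ^ ((1 - p) * ((t + s : ℕ) : ℝ)))
        ≤ ∑' t : ℕ, ENNReal.ofReal (Y ^ (1 - p)) * ENNReal.ofReal ((2 : ℝ) ^ (-((p - 1) * t)) * (t + 3)) := by
          apply ENNReal.tsum_le_tsum
          intro t
          rw [← ENNReal.ofReal_mul hYZ.le]
          apply ENNReal.ofReal_le_ofReal
          have e1 : (2 : ℝ) ^ ((1 - p) * ((t + s : ℕ) : ℝ)) =
              (2 : ℝ) ^ ((1 - p) * s) * (2 : ℝ) ^ (-((p - 1) * t)) := by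
            rw [← Real.rpow_add (by norm_num)]
            congr 1
            push_cast
            ring
          rw [e1]
          have hx : (0 : ℝ) < (2 : ℝ) ^ (-((p - 1) * t)) := Real.rpow_pos_of_pos (by norm_num) _
          have h6 : (2 : ℝ) ^ (-((p - 1) * t)) ≤ (2 : ℝ) ^ (-((p - 1) * t)) * (t + 3) := by
            have : (0 : ℝ) ≤ t := Nat.cast_nonneg t
            nlinarith
          exact mul_le_mul hYp h6 hx.le hYZ.le
      _ = ENNReal.ofReal (Y ^ (1 - p)) * ∑' t : ℕ, ENNReal.ofReal ((2 : ℝ) ^ (-((p - 1) * t)) * (t + 3)) :=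
          ENNReal.tsum_mul_left
      _ ≤ ENNReal.ofReal (Y ^ (1 - p)) * ENNReal.ofReal C₁ := by gcongr
      _ = ENNReal.ofReal (C₁ * Y ^ (1 - p)) := by
          rw [mul_comm C₁, ENNReal.ofReal_mul hYZ.le]
  -- second sum
  have t2 : ∑' u : ℕ, (if s ≤ u then ENNReal.ofReal ((2 : ℝ) ^ (-(p * u)) * (u + 3) * Y) else 0) ≤
      ENNReal.ofReal (C₂ * (s + 1) * Y ^ (1 - p)) := by
    rw [shift s (fun u : ℕ => ENNReal.ofReal ((2 : ℝ) ^ (-(p * u)) * (u + 3) * Y))]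
    calc ∑' t : ℕ, ENNReal.ofReal ((2 : ℝ) ^ (-(p * ((t + s : ℕ) : ℝ))) * (((t + s : ℕ) : ℝ) + 3) * Y)
        ≤ ∑' t : ℕ, ENNReal.ofReal ((s + 1) * Y ^ (1 - p)) *
          ENNReal.ofReal ((2 : ℝ) ^ (-(p * t)) * (t + 3)) := by
          apply ENNReal.tsum_le_tsum
          intro t
          rw [← ENNReal.ofReal_mul (by positivity)]
          apply ENNReal.ofReal_le_ofReal
          push_cast
          rw [hq t]
          have ht : (0 : ℝ) ≤ t := Nat.cast_nonneg t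
          have hs0 : (0 : ℝ) ≤ s := Nat.cast_nonneg s
          have hx : (0 : ℝ) < (2 : ℝ) ^ (-(p * t)) := Real.rpow_pos_of_pos (by norm_num) _
          have h7 : (t : ℝ) + s + 3 ≤ (s + 1) * (t + 3) := by nlinarith
          have hxs : (0 : ℝ) < (2 : ℝ) ^ (-(p * s)) := Real.rpow_pos_of_pos (by norm_num) _
          calc (2 : ℝ) ^ (-(p * s)) * (2 : ℝ) ^ (-(p * t)) * ((t : ℝ) + s + 3) * Y
              ≤ (2 : ℝ) ^ (-(p * s)) * (2 : ℝ) ^ (-(p * t)) * ((s + 1) * (t + 3)) * Y := by gcongr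
            _ = ((s + 1) * ((2 : ℝ) ^ (-(p * s)) * Y)) * ((2 : ℝ) ^ (-(p * t)) * (t + 3)) := by ring
            _ ≤ ((s + 1) * Y ^ (1 - p)) * ((2 : ℝ) ^ (-(p * t)) * (t + 3)) := by gcongr
      _ = ENNReal.ofReal ((s + 1) * Y ^ (1 - p)) *
          ∑' t : ℕ, ENNReal.ofReal ((2 : ℝ) ^ (-(p * t)) * (t + 3)) := ENNReal.tsum_mul_left
      _ ≤ ENNReal.ofReal ((s + 1) * Y ^ (1 - p)) * ENNReal.ofReal C₂ := by gcongr
      _ = ENNReal.ofReal (C₂ * (s + 1) * Y ^ (1 - p)) := by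
          rw [← ENNReal.ofReal_mul (by positivity)]
          congr 1
          ring
  -- third sum
  have hL : ∀ i, 0 ≤ elt τ θ i ∧ elt τ θ i ≤ 1 :=
    fun i => ⟨(hCN φ τ hG 0 i θ).2.2.1, (hCN φ τ hG 0 i θ).2.2.2.1⟩
  have t3 := (h3 (fun i => elt τ θ i) A (Y / 2) hL (fun n => hGap θ n) (by linarith)).2
  have e3 : C₃ * A * (Y / 2) ^ (1 - p) = C₃ * A * (2 : ℝ) ^ (p - 1) * Y ^ (1 - p) := by
    rw [Real.div_rpow hY0.le (by norm_num)]
    have : (2 : ℝ) ^ (p - 1) = ((2 : ℝ) ^ (1 - p))⁻¹ := by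
      rw [← Real.rpow_neg (by norm_num)]
      congr 1
      ring
    rw [this]
    field_simp
  rw [e3] at t3
  calc ∑' u : ℕ, (if s ≤ u then ENNReal.ofReal ((2 : ℝ) ^ (-(p * u)) * ((2 : ℝ) ^ u + (u + 2) * Y +
        ∑ i ∈ Finset.Icc 1 (Wt τ u Y θ + 1), (nn τ u θ i : ℝ))) else 0)
      ≤ ∑' u : ℕ, ((if s ≤ u then ENNReal.ofReal ((2 : ℝ) ^ ((1 - p) * u)) else 0) +
        (if s ≤ u then ENNReal.ofReal ((2 : ℝ) ^ (-(p * u)) * (u + 3) * Y) else 0) +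
        2 * ∑' i : ℕ, ENNReal.ofReal (if Y / 2 ≤ (2 : ℝ) ^ u * elt τ θ (i + 1) then
        (2 : ℝ) ^ ((1 - p) * u) * elt τ θ (i + 1) else 0)) := by
        apply ENNReal.tsum_le_tsum
        intro u
        by_cases hu : s ≤ u
        · rw [if_pos hu, if_pos hu, if_pos hu]
          exact hpt u hu
        · rw [if_neg hu]
          exact zero_le
    _ = ∑' u : ℕ, (if s ≤ u then ENNReal.ofReal ((2 : ℝ) ^ ((1 - p) * u)) else 0) +
        ∑' u : ℕ, (if s ≤ u then ENNReal.ofReal ((2 : ℝ) ^ (-(p * u)) * (u + 3) * Y) else 0) +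
        2 * ∑' (u : ℕ) (i : ℕ), ENNReal.ofReal (if Y / 2 ≤ (2 : ℝ) ^ u * elt τ θ (i + 1) then
        (2 : ℝ) ^ ((1 - p) * u) * elt τ θ (i + 1) else 0) := by
        rw [ENNReal.tsum_add, ENNReal.tsum_add, ENNReal.tsum_mul_left]
    _ ≤ ENNReal.ofReal (C₁ * Y ^ (1 - p)) + ENNReal.ofReal (C₂ * (s + 1) * Y ^ (1 - p)) +
        ENNReal.ofReal 2 * ENNReal.ofReal (C₃ * A * (2 : ℝ) ^ (p - 1) * Y ^ (1 - p)) := by
        have e2 : ENNReal.ofReal 2 = 2 := by norm_num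
        rw [e2]
        gcongr
    _ = ENNReal.ofReal (C₁ * Y ^ (1 - p) + C₂ * (s + 1) * Y ^ (1 - p) +
        2 * (C₃ * A * (2 : ℝ) ^ (p - 1) * Y ^ (1 - p))) := by
        rw [ENNReal.ofReal_add (by positivity) (by positivity),
          ENNReal.ofReal_add (by positivity) (by positivity),
          ENNReal.ofReal_mul (by norm_num : (0 : ℝ) ≤ 2)]
    _ ≤ ENNReal.ofReal ((C₁ + C₂ + 2 * (C₃ * A * (2 : ℝ) ^ (p - 1))) * (s + 1) * Y ^ (1 - p)) := by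
        apply ENNReal.ofReal_le_ofReal
        have hs0 : (0 : ℝ) ≤ s := Nat.cast_nonneg s
        have h8 : 0 ≤ C₁ * Y ^ (1 - p) * s := by positivity
        have h9 : 0 ≤ (C₃ * A * (2 : ℝ) ^ (p - 1) * Y ^ (1 - p)) * s := by positivity
        nlinarith

end Pool.Agent.Helper27.EQ
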