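import Pool.Agent.Helper20.EQ.St1

/-!
# Project EQ: series used in WRN and MIQ
-/

set_option autoImplicit false

open MeasureTheory Set Filter Topology
open scoped ENNReal

namespace Pool.Agent.Helper27.EQ

theorem ser (q : ℝ) (hq : 0 < q) : ∃ C : ℝ, 0 < C ∧
    ∑' u : ℕ, ENNReal.ofReal ((2 : ℝ) ^ (-(q * u)) * (u + 3)) ≤ ENNReal.ofReal C := by
  set r : ℝ := (2 : ℝ) ^ (-q) with hr
  have hr0 : 0 < r := Real.rpow_pos_of_pos (by norm_num) _
  have hr1 : r < 1 := Real.rpow_lt_one_of_one_lt_of_neg (by norm_num) (by linarith)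
  have hrn : ‖r‖ < 1 := by rwa [Real.norm_of_nonneg hr0.le]
  have h1 := summable_pow_mul_geometric_of_norm_lt_one 1 hrn
  have h2 := summable_geometric_of_lt_one hr0.le hr1
  have h3 : Summable (fun u : ℕ => (2 : ℝ) ^ (-(q * u)) * (u + 3)) := by
    have h4 := h1.add (h2.mul_left 3)
    refine h4.congr fun u => ?_
    have e : (2 : ℝ) ^ (-(q * (u : ℝ))) = r ^ u := by
      rw [hr, ← Real.rpow_natCast, ← Real.rpow_mul (by norm_num)]
      congr 1
      ring
    rw [e]
    ring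
  have hpos : ∀ u : ℕ, 0 ≤ (2 : ℝ) ^ (-(q * u)) * ((u : ℝ) + 3) := fun u => by positivity
  refine ⟨∑' u : ℕ, (2 : ℝ) ^ (-(q * u)) * ((u : ℝ) + 3) + 1, ?_, ?_⟩
  · have h5 : 0 ≤ ∑' u : ℕ, (2 : ℝ) ^ (-(q * u)) * ((u : ℝ) + 3) := tsum_nonneg hpos
    linarith
  · rw [← ENNReal.ofReal_tsum_of_nonneg hpos h3]
    apply ENNReal.ofReal_le_ofReal
    linarith

theorem shift (s : ℕ) (f : ℕ → ℝ≥0∞) :
    ∑' u : ℕ, (if s ≤ u then f u else 0) = ∑' t : ℕ, f (t + s) := by
  have h := Summable.sum_add_tsum_nat_add' (f := fun u : ℕ => if s ≤ u then f u else 0) (k := s)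
    ENNReal.summable
  rw [← h]
  have h0 : ∑ i ∈ Finset.range s, (if s ≤ i then f i else 0) = 0 := by
    apply Finset.sum_eq_zero
    intro i hi
    rw [Finset.mem_range] at hi
    rw [if_neg (by omega)]
  rw [h0, zero_add]
  apply tsum_congr
  intro t
  rw [if_pos (by omega)]

theorem ncard_le (P : ℕ → Prop) [DecidablePred P] (c : ℝ) (hc : 0 ≤ c) :
    ENNReal.ofReal (c * ({i : ℕ | 1 ≤ i ∧ P i}.ncard : ℝ)) ≤
      ∑' i : ℕ, ENNReal.ofReal (if P (i + 1) then c else 0) := by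
  have e1 : {i : ℕ | 1 ≤ i ∧ P i} = Nat.succ '' {i : ℕ | P (i + 1)} := by
    ext i
    simp only [mem_setOf_eq, mem_image]
    constructor
    · rintro ⟨h1, h2⟩
      refine ⟨i - 1, ?_, ?_⟩
      · rwa [Nat.sub_add_cancel h1]
      · show i - 1 + 1 = i
        omega
    · rintro ⟨j, h1, rfl⟩
      exact ⟨Nat.succ_le_succ (Nat.zero_le j), h1⟩
  rw [e1, ncard_image_of_injective _ Nat.succ_injective]
  by_cases hfin : {i : ℕ | P (i + 1)}.Finite
  · rw [ncard_eq_toFinset_card _ hfin]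
    calc ENNReal.ofReal (c * ((hfin.toFinset.card : ℕ) : ℝ))
        = ∑ i ∈ hfin.toFinset, ENNReal.ofReal (if P (i + 1) then c else 0) := by
          rw [Finset.sum_congr rfl (g := fun _ => ENNReal.ofReal c)]
          · rw [Finset.sum_const, nsmul_eq_mul, mul_comm c, ENNReal.ofReal_mul (by positivity),
              ENNReal.ofReal_natCast]
          · intro i hi
            rw [Finite.mem_toFinset] at hi
            have hi' : P (i + 1) := hi
            rw [if_pos hi']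
      _ ≤ _ := ENNReal.sum_le_tsum _
  · rw [Set.Infinite.ncard hfin]
    simp

end Pool.Agent.Helper27.EQ
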